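import Pool.Agent.T2H78.CycFinal

/-!
# MP_57d9fc_co, Q1 (full answer, affirmative)

For every even `d ≥ 2`, among the cyclic `d`-polytopes with `d + 3` vertices inscribed in the unit
sphere the maximal volume is attained, and every maximiser has a dihedral symmetry of order
`d + 3`.
-/

namespace Pool.Agent.Results.MP_57d9fc_co.RegularMaximizer
open Set MeasureTheory

/-- The moment curve `t ↦ (t, t², …, t^d)`. -/
noncomputable def momentCurve (d : ℕ) (t : ℝ) : EuclideanSpace ℝ (Fin d) :=
  WithLp.toLp 2 fun i => t ^ ((i : ℕ) + 1)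

/-- `P` is a cyclic `d`-polytope with `n` vertices: `P` is the convex hull of a finite set, has
nonempty interior in `𝔼^d`, and its face lattice (the exposed faces, including `∅` and `P`,
ordered by inclusion) is order isomorphic to the face lattice of the convex hull of `n` distinct
points of the moment curve. -/
def IsCyclicPolytope (d n : ℕ) (P : Set (EuclideanSpace ℝ (Fin d))) : Prop :=
  (∃ s : Set (EuclideanSpace ℝ (Fin d)), s.Finite ∧ P = convexHull ℝ s) ∧
  (interior P).Nonempty ∧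
  ∃ t : Fin n → ℝ, Function.Injective t ∧
    Nonempty ({B : Set (EuclideanSpace ℝ (Fin d)) // IsExposed ℝ P B} ≃o
      {B : Set (EuclideanSpace ℝ (Fin d)) //
        IsExposed ℝ (convexHull ℝ (range fun i => momentCurve d (t i))) B})

/-- The class `𝒞` of cyclic `d`-polytopes with `n` vertices all of whose vertices (extreme points)
lie on the unit sphere. -/
def InscribedCyclic (d n : ℕ) : Set (Set (EuclideanSpace ℝ (Fin d))) :=
  {P | IsCyclicPolytope d n P ∧ P.extremePoints ℝ ⊆ Metric.sphere 0 1}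

/-- The supremum `v^c_d` of the volumes of the members of `𝒞_d`. -/
noncomputable def supVolume (d : ℕ) : ENNReal :=
  ⨆ P ∈ InscribedCyclic d (d + 3), volume P

/-- Dihedral symmetry of order `n`: for some labelling `p_i`, `i` modulo `n`, of the vertices, the
length `‖p_{i+k} - p_i‖` does not depend on `i`, for every `k`. -/
def HasDihedralSymmetry (d n : ℕ) (P : Set (EuclideanSpace ℝ (Fin d))) : Prop :=
  ∃ p : ZMod n → EuclideanSpace ℝ (Fin d), Function.Injective p ∧
    range p = P.extremePoints ℝ ∧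
    ∀ k i j, dist (p (i + k)) (p i) = dist (p (j + k)) (p j)

theorem inscribed_eq (d n : ℕ) : InscribedCyclic d n = Pool.Agent.T2H78.Cyc.InscribedCyclic d n :=
  rfl

/-- For every even `d ≥ 2`: the maximal volume `v^c_d` is attained in `𝒞_d`, every maximiser has a
dihedral symmetry of order `d + 3`, and more precisely the vertices `p_i` of every maximiser can be
labelled so that `⟨p_i, p_j⟩ = (2/d) ∑_{k=1}^{d/2} cos (2 π k (i - j) / (d + 3))`. -/
theorem result (d : ℕ) (hd : Even d) (hd2 : 2 ≤ d) :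
    (∃ P ∈ InscribedCyclic d (d + 3), volume P = supVolume d) ∧
    (∀ P ∈ InscribedCyclic d (d + 3), volume P = supVolume d → HasDihedralSymmetry d (d + 3) P) ∧
    (∀ P ∈ InscribedCyclic d (d + 3), volume P = supVolume d →
      ∃ p : ZMod (d + 3) → EuclideanSpace ℝ (Fin d), Function.Injective p ∧
        range p = P.extremePoints ℝ ∧
        ∀ i j, inner ℝ (p i) (p j) = (2 / (d : ℝ)) * ∑ k ∈ Finset.range (d / 2),
          Real.cos (2 * Real.pi * ((k : ℝ) + 1) * ((i - j).val : ℝ) / ((d : ℝ) + 3))) := by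
  obtain ⟨m, rfl⟩ := even_iff_exists_two_mul.1 hd
  have hm : 0 < m := by omega
  -- the supremum
  have hsup : supVolume (2 * m) = ENNReal.ofReal
      (Pool.Agent.T2H78.Cyc.Bm m / m.factorial) * Pool.Agent.T2H78.Cyc.kap m := by
    apply le_antisymm
    · refine iSup₂_le fun P hP => ?_
      exact (Pool.Agent.T2H78.Cyc.main_upper m hm P hP).1
    · refine (Pool.Agent.T2H78.Cyc.vol_p0 m hm).trans ?_
      exact le_iSup₂ (f := fun P (_ : P ∈ InscribedCyclic (2 * m) (2 * m + 3)) => volume P)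
        _ (Pool.Agent.T2H78.Cyc.p0_class m hm)
  have hgram : ∀ P ∈ InscribedCyclic (2 * m) (2 * m + 3), volume P = supVolume (2 * m) →
      ∃ p : ZMod (2 * m + 3) → EuclideanSpace ℝ (Fin (2 * m)), Function.Injective p ∧
        range p = P.extremePoints ℝ ∧
        ∀ i j, inner ℝ (p i) (p j) = Pool.Agent.T2H78.Cyc.gram m (i - j) := by
    intro P hP hv
    refine (Pool.Agent.T2H78.Cyc.main_upper m hm P hP).2 ?_
    rw [← hsup, ← hv]
  refine ⟨⟨_, Pool.Agent.T2H78.Cyc.p0_class m hm, ?_⟩, ?_, ?_⟩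
  · refine le_antisymm ?_ ?_
    · exact le_iSup₂ (f := fun P (_ : P ∈ InscribedCyclic (2 * m) (2 * m + 3)) => volume P)
        _ (Pool.Agent.T2H78.Cyc.p0_class m hm)
    · rw [hsup]
      exact Pool.Agent.T2H78.Cyc.vol_p0 m hm
  · intro P hP hv
    obtain ⟨p, hinj, hr, hg⟩ := hgram P hP hv
    refine ⟨p, hinj, hr, ?_⟩
    have hd : ∀ k i, dist (p (i + k)) (p i) ^ 2 =
        2 * Pool.Agent.T2H78.Cyc.gram m 0 - 2 * Pool.Agent.T2H78.Cyc.gram m k := by
      intro k i
      rw [dist_eq_norm, norm_sub_sq_real, ← real_inner_self_eq_norm_sq,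
        ← real_inner_self_eq_norm_sq, hg, hg, hg, sub_self, sub_self, add_sub_cancel_left]
      ring
    intro k i j
    have h1 := hd k i
    rw [← hd k j] at h1
    exact (pow_left_inj₀ dist_nonneg dist_nonneg two_ne_zero).1 h1
  · intro P hP hv
    obtain ⟨p, hinj, hr, hg⟩ := hgram P hP hv
    refine ⟨p, hinj, hr, fun i j => ?_⟩
    rw [hg, Pool.Agent.T2H78.Cyc.gram]
    have hm' : (0 : ℝ) < m := by exact_mod_cast hm
    have e1 : (2 / ((2 * m : ℕ) : ℝ)) = 1 / m := by push_cast; field_simp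
    have e2 : 2 * m / 2 = m := by omega
    rw [e1, e2, Finset.sum_range]
    congr 1
    refine Finset.sum_congr rfl fun k _ => ?_
    set x := i - j with hx
    have h := ZMod.stdAddChar_coe (N := 2 * m + 3) ((x.val * ((k : ℕ) + 1) : ℕ) : ℤ)
    have e3 : (((x.val * ((k : ℕ) + 1) : ℕ) : ℤ) : ZMod (2 * m + 3)) =
        x * Pool.Agent.T2H78.Cyc.fr m k.castSucc := by
      rw [Int.cast_natCast, Nat.cast_mul, ZMod.natCast_zmod_val]
      rfl
    rw [e3] at h
    rw [Pool.Agent.T2H78.Cyc.cs, h]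
    have e4 : (2 * (Real.pi : ℂ) * Complex.I * (((x.val * ((k : ℕ) + 1) : ℕ) : ℤ) : ℂ) /
        ((2 * m + 3 : ℕ) : ℂ)) = ((2 * Real.pi * (((k : ℕ) : ℝ) + 1) * (x.val : ℝ) /
          (((2 * m : ℕ) : ℝ) + 3) : ℝ) : ℂ) * Complex.I := by
      push_cast; ring
    rw [e4, Complex.exp_ofReal_mul_I_re]

end Pool.Agent.Results.MP_57d9fc_co.RegularMaximizer
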